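import Mathlib

set_option autoImplicit false

/-!
# Powers of elements of pi-regular rings

In a pi-regular ring every element has arbitrarily high regular powers, in every arithmetic
progression `d, 2 d, 3 d, ...` of exponents. In particular a regular element always has a regular
power `a ^ k` with `k ≥ 2`.
-/

namespace Pool.Agent.Results.MP_59f064_al.RegularPowers

universe u

/-- An element `a` of a ring is (von Neumann) regular if `a = a x a` for some `x`. -/
def IsReg {R : Type u} [Ring R] (a : R) : Prop := ∃ x : R, a = a * x * a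

/-- A ring is pi-regular if for every `a` there is `n ≥ 1` such that `a ^ n` is regular. -/
def IsPiRegular (R : Type u) [Ring R] : Prop := ∀ a : R, ∃ n : ℕ, 1 ≤ n ∧ IsReg (a ^ n)

/-- There are no pi-regular ring `R` and regular element `a` of `R` such that `a ^ k` is not regular
for every `k ≥ 2`. Moreover, in a pi-regular ring, for every element `a` (regular or not), every
`d ≥ 1` and every `N` there is a multiple `k ≥ N` of `d` such that `a ^ k` is regular. -/
theorem result :
    (¬ ∃ (R : Type u) (_ : Ring R), IsPiRegular R ∧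
      ∃ a : R, IsReg a ∧ ∀ k : ℕ, 2 ≤ k → ¬ IsReg (a ^ k)) ∧
    (∀ (R : Type u) [Ring R], IsPiRegular R → ∀ (a : R) (d N : ℕ), 1 ≤ d →
      ∃ k : ℕ, N ≤ k ∧ d ∣ k ∧ IsReg (a ^ k)) := by
  have main : ∀ (R : Type u) [Ring R], IsPiRegular R → ∀ (a : R) (d N : ℕ), 1 ≤ d →
      ∃ k : ℕ, N ≤ k ∧ d ∣ k ∧ IsReg (a ^ k) := by
    intro R _ hR a d N hd
    obtain ⟨n, hn, hreg⟩ := hR (a ^ (d * (N + 1)))
    refine ⟨d * (N + 1) * n, ?_, ⟨(N + 1) * n, by ring⟩, ?_⟩
    · nlinarith [Nat.mul_le_mul (Nat.mul_le_mul hd (Nat.le_refl (N + 1))) hn]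
    · rwa [pow_mul]
  refine ⟨?_, main⟩
  rintro ⟨R, _, hR, a, -, ha⟩
  obtain ⟨k, hk, -, h⟩ := main R hR a 1 2 le_rfl
  exact ha k hk h

end Pool.Agent.Results.MP_59f064_al.RegularPowers
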